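import Pool.Agent.Lib.MP_18566a_pr.Stmt
import Pool.Agent.Lib.MP_18566a_pr.T.N5

open MeasureTheory MP18

/-- For `N = 2` the map `F ↦ K(F, ·)` is not injective on the class C. -/
theorem Pool.Agent.Results.MP_18566a_pr.NotInjective.result :
    ∃ μ ν : Measure ℝ, ClassC μ ∧ ClassC ν ∧
      ProbabilityTheory.cdf μ ≠ ProbabilityTheory.cdf ν ∧
      ∀ π : Measure ℝ, IsProbabilityMeasure π → ProbabilityTheory.cdf π 0 = 0 →
        ∀ lam : ℝ, 0 < lam → KK 2 le_rfl π μ lam = KK 2 le_rfl π ν lam :=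
  final_pair
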